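import Mathlib
import Pool.Agent.H617.SP.J6

/-!
Every admissible pattern over `K[X]`, `K` a finite field of odd characteristic, is realised by
consecutive almost primes with every prescribed pattern of parities (all odd, as for primes,
included), uniformly in windows of size `q ^ d` up to the degree `n` divided by a constant times
`log n`.
-/

open Polynomial

namespace Pool.Agent.Results.MP_3ec731_nt.ConsecutiveOddCharacteristic

open Classical in
/-- The Möbius function of `K[X]`: `(-1) ^ k` if `F` is a nonzero constant times a product of `k`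
distinct monic irreducible polynomials, and `0` otherwise. -/
noncomputable def moebius {K : Type} [Field K] (F : K[X]) : ℤ :=
  if Squarefree F then (-1) ^ Multiset.card (UniqueFactorizationMonoid.factors F) else 0

/-- `F` is squarefree with at most `r` irreducible factors, each of degree at least `n / r`. -/
def IsAlmostPrime {K : Type} [Field K] (r n : ℕ) (F : K[X]) : Prop :=
  Squarefree F ∧ Multiset.card (UniqueFactorizationMonoid.factors F) ≤ r ∧
    ∀ P : K[X], Irreducible P → P ∣ F → n ≤ r * P.natDegree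

/-- `H` is admissible: for every irreducible `P` some `x` is such that `P` divides no `x + h`,
`h ∈ H`. -/
def Admissible {K : Type} [Field K] (H : Finset K[X]) : Prop :=
  ∀ P : K[X], P.Monic → Irreducible P → ∃ x : K[X], ∀ h ∈ H, ¬ P ∣ x + h

/-- Apart from the `f + h`, `h ∈ H`, every `f + g` with `deg g ≤ d` has an irreducible factor of
degree at most `B`. -/
def Consecutive {K : Type} [Field K] (H : Finset K[X]) (d B : ℕ) (f : K[X]) : Prop :=
  ∀ g : K[X], g.natDegree ≤ d → g ∉ H → ∃ P : K[X], Irreducible P ∧ P.natDegree ≤ B ∧ P ∣ f + g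

/-- Let `p` be an odd prime, `K` a finite field of characteristic `p` with `q` elements and `k ≥ 1`.
There are `r`, `C` and `δ > 0` such that for all `d` and all `n ≥ C (d + 1) q ^ d`, for all
admissible sets `H` of `k` polynomials of degree at most `d` and all signs `σ h`, at least
`δ q ^ (⌊n / p⌋ - C (d + 1) q ^ d) / n ^ k` monic `f` of degree `n` have the property: each `f + h`,
`h ∈ H`, is a product of at most `r` distinct irreducibles of degree at least `n / r`, with
`μ (f + h) = σ h`, and each other `f + g`, `deg g ≤ d`, is divisible by an irreducible of degree at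
most `2 d + 8`. -/
theorem result (p : ℕ) (hp : p.Prime) (hp2 : p ≠ 2) (K : Type) [Field K] [Fintype K] [CharP K p]
    (q : ℕ) (hq : Fintype.card K = q) (k : ℕ) (hk : 0 < k) :
    ∃ (r C : ℕ) (δ : ℝ), 0 < δ ∧ ∀ d n : ℕ, C * ((d + 1) * q ^ d) ≤ n →
      ∀ H : Finset K[X], H.card = k → (∀ h ∈ H, h.natDegree ≤ d) → Admissible H →
        ∀ σ : K[X] → ℤ, (∀ h ∈ H, σ h = 1 ∨ σ h = -1) →
          ∃ S : Finset K[X],
            δ * (q : ℝ) ^ (n / p - C * ((d + 1) * q ^ d)) / (n : ℝ) ^ k ≤ S.card ∧
            ∀ f ∈ S, f.Monic ∧ f.natDegree = n ∧ Consecutive H d (2 * d + 8) f ∧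
              ∀ h ∈ H, IsAlmostPrime r n (f + h) ∧ moebius (f + h) = σ h := by
  have : Fact p.Prime := ⟨hp⟩
  subst hq
  obtain ⟨R, C, δ, hδ, hR⟩ := Pool.Agent.H617.SP.consecutive_uniform p hp2 K k hk
  refine ⟨R, C, δ, hδ, ?_⟩
  intro d n hn H hcard hd hadm σ hσ
  obtain ⟨S, hS1, hS2⟩ := hR d n hn H hcard hd (fun P hP hPm => hadm P hPm hP) σ hσ
  refine ⟨S, hS1, fun f hf => ?_⟩
  obtain ⟨h1, h2, h3, h4⟩ := hS2 f hf
  refine ⟨h1, h2, h4, fun g hg => ?_⟩
  obtain ⟨h5, h6, h7, h8⟩ := h3 g hg
  refine ⟨⟨h5, h6, h7⟩, ?_⟩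
  rw [moebius, if_pos h5]
  exact h8

end Pool.Agent.Results.MP_3ec731_nt.ConsecutiveOddCharacteristic
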