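import Mathlib
import Pool.Agent.H529.R.Pat
import Pool.Agent.H529.R.L44
import Pool.Agent.H529.MP.Three
import Pool.Agent.H529.MP.FourD

/-!
# Consecutive primes in patterns: 44, 2946, 200705 shifts

Every admissible set of `44` (`2946`, `200705`) integers contains a pattern `P` with at least two (three, four)
elements which is realised exactly, that is, by consecutive primes and with no further primes within any
prescribed distance `R`, infinitely often. From theorems on linear forms with the certificates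
`Pool.Agent.H529.G.cert`, `Pool.Agent.H529.MP.lhyp3`, `Pool.Agent.H529.MP.lhyp4`.
-/

set_option autoImplicit false

open Filter

namespace Pool.Agent.Results.MP_3ec731_nt.ExplicitExactPatterns

/-- Every set `S` of at least `K` integers that misses a residue class modulo every prime has a subset `P` with
at least `m` elements such that for every `R`, every `ε > 0` and arbitrarily large `x` at least `x ^ (1 - ε)`
natural numbers `n ≤ x` have the property: for `|y| ≤ R` the number `n + y` is prime if and only if `y ∈ P`. -/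
def ExactPatterns (m K : ℕ) : Prop := ∀ S : Finset ℤ, K ≤ S.card →
    (∀ p : ℕ, p.Prime → ∃ r : ℤ, ∀ s ∈ S, ¬ (p : ℤ) ∣ r + s) →
    ∃ P : Finset ℤ, P ⊆ S ∧ m ≤ P.card ∧ ∀ (R : ℕ) (ε : ℝ), 0 < ε → ∃ᶠ x : ℝ in atTop,
      x ^ (1 - ε) ≤ (Set.ncard {n : ℕ | (n : ℝ) ≤ x ∧
        ∀ y : ℤ, |y| ≤ R → ((∃ p : ℕ, p.Prime ∧ (p : ℤ) = n + y) ↔ y ∈ P)} : ℝ)

theorem le_of_lhyp {m K : ℕ} (h : Pool.Agent.H358R5.LHyp m K) : Pool.Agent.H529.R.TE.LE' m K := by
  classical
  intro a b ha hne hloc ε hε
  filter_upwards [h a b ha hne hloc ε hε] with X hX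
  refine hX.trans (Nat.cast_le.2 ?_)
  rw [← Set.ncard_coe_finset]
  apply Set.ncard_le_ncard
  · intro n hn
    obtain ⟨h1, h2⟩ := Finset.mem_filter.1 (Finset.mem_coe.1 hn)
    rw [Finset.mem_Icc] at h1
    have hX0 : (0 : ℝ) ≤ X := by
      by_contra hcon
      push Not at hcon
      rw [Nat.floor_of_nonpos hcon.le] at h1
      omega
    refine ⟨h1.1, (Nat.le_floor_iff hX0).1 h1.2, ?_⟩
    rw [← Set.ncard_coe_finset] at h2
    refine h2.trans (Set.ncard_le_ncard ?_ (Set.toFinite _))
    intro i hi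
    exact (Finset.mem_filter.1 (Finset.mem_coe.1 hi)).2
  · apply (Set.finite_Iic ⌊X⌋₊).subset
    rintro n ⟨_, h3, _⟩
    exact Nat.le_floor h3

theorem of_lhyp {m K : ℕ} (h : Pool.Agent.H358R5.LHyp m K) : ExactPatterns (m + 1) K :=
  fun S hS hadm => Pool.Agent.H529.R.Pat.exact_pattern (le_of_lhyp h) S hS hadm

/-- Patterns of two primes in `44`, of three in `2946`, of four in `200705` shifts. -/
theorem result : ExactPatterns 2 44 ∧ ExactPatterns 3 2946 ∧ ExactPatterns 4 200705 :=
  ⟨of_lhyp Pool.Agent.H529.R.lhyp2, of_lhyp Pool.Agent.H529.MP.lhyp3, of_lhyp Pool.Agent.H529.MP.lhyp4⟩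

end Pool.Agent.Results.MP_3ec731_nt.ExplicitExactPatterns
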