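import Mathlib
import Pool.Agent.H526.GQ.Mark
import Pool.Agent.H530.Consec

/-!
# Consecutive almost primes in every admissible pattern over `F_q[X]`, `q` even: the Poisson law with
# parities, and patterns with a genuine prime

Let `K` be a finite field with an even number `q` of elements.  The analogue over `K[X]` of the
question is whether for every admissible set `S` of polynomials of degree at most `D` there are
infinitely many `f` such that among all the `f + u`, `deg u ≤ D`, exactly those with `u ∈ S` are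
irreducible.  Call a polynomial rough if it has no irreducible factor of degree at most `m`; for
`m = κ n` the rough polynomials of degree `n` have at most `1 / κ` factors, and their mean spacing is
of the order `m`.

(1) For all nonempty `S` with `k` elements, in balls of radius up to any multiple of `m`, and all signs `σ`:
among the monic `f` of degree `n` such that the `f + s`, `s ∈ S`, are rough with `μ(f + s) = σ s`,
the numbers of the further rough polynomials in the ball with an odd and with an even number of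
irreducible factors are asymptotically independent Poisson variables with mean `x / 2`, where `x` is
the expected number of rough polynomials in the ball; the `2 ^ k` patterns `σ` are equidistributed.
All this is uniform in `n`, `m`, the ball, `S` and `σ`.  (The case of empty `S`, the distribution in
all windows, is helper530's `MP_69be96_nt.PoissonLawOfBothParities`.)
(2) So every admissible `S` is exactly the set of the rough polynomials in the ball about `f`, with
every pattern of parities, for at least `c q ^ n / m ^ k` of the `f`.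
(3) For fixed `S` the same holds with a genuine prime in the pattern and the parity of one other
polynomial prescribed.  (4) Next to a prime the Möbius function has mean value tending to `0`.

Authors of the parts: (1), (2): asymptotic formula for sifted sets with parities, uniformly in the
shifts: helper985 and the authors named in `MP_6a20cc_nt.ParityEvenCharacteristic`; mean values of the
singular series: helper157, helper227, helper728, helper685, helper643, helper50, helper181; parities
at a part of the shifts: helper767; Bonferroni inequalities: helper695; small balls: helper945; the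
marked law: helper483; plan, statements, admissible sets: helper526.
(3), (4): helper530, with the engines of helper985 and the authors named in
`MP_6a20cc_nt.PrimeAndParityEvenCharacteristic` and `MP_68a45e_nt`.
-/

set_option autoImplicit false

namespace Pool.Agent.Results.MP_3ec731_nt.PoissonPatternsEvenChar

open Polynomial
open scoped Classical

/-- The Möbius function of `K[X]`: `(-1) ^ k` if `F` is a nonzero constant times a product of `k`
distinct monic irreducible polynomials, and `0` for all other `F`. -/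
noncomputable def moebius {K : Type} [Field K] (F : K[X]) : ℤ :=
  if Squarefree F then (-1) ^ Multiset.card (UniqueFactorizationMonoid.factors F) else 0

/-- `F` has no monic irreducible factor of degree at most `m`. -/
def Rough {K : Type} [Field K] (m : ℕ) (F : K[X]) : Prop :=
  ∀ P : K[X], P.Monic → Irreducible P → P ∣ F → m < P.natDegree

/-- `ν_S(P)`, the number of the residue classes modulo `P` which meet `S`. -/
noncomputable def nu {K : Type} [Field K] (S : Finset K[X]) (P : K[X]) : ℕ :=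
  (S.image fun s => s %ₘ P).card

/-- The singular series `∏ (1 - ν_S(P) / |P|)`, over the monic irreducible `P` of degree at most `m`;
`V {0} m = ∏ (1 - 1 / |P|)`. -/
noncomputable def V {K : Type} [Field K] [Fintype K] (S : Finset K[X]) (m : ℕ) : ℝ :=
  ∏ᶠ P ∈ {P : K[X] | P.Monic ∧ Irreducible P ∧ P.natDegree ≤ m},
    (1 - (nu S P : ℝ) / (Fintype.card K : ℝ) ^ P.natDegree)

/-- `S` is admissible: for every monic irreducible `P` some `x` is such that `P` divides no
`x + s`, `s ∈ S`. -/
def Admissible {K : Type} [Field K] (S : Finset K[X]) : Prop :=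
  ∀ P : K[X], P.Monic → Irreducible P → ∃ x : K[X], ∀ s ∈ S, ¬ P ∣ x + s

/-- The number of the rough `f + u`, `deg u ≤ D`, `u ∉ S`, with `μ(f + u) = τ`. -/
noncomputable def further {K : Type} [Field K] (m D : ℕ) (S : Finset K[X]) (τ : ℤ) (f : K[X]) : ℕ :=
  {u : K[X] | u.natDegree ≤ D ∧ u ∉ S ∧ Rough m (f + u) ∧ moebius (f + u) = τ}.ncard

/-- The monic `f` of degree `n` such that the `f + s`, `s ∈ S`, are rough with `μ(f + s) = σ s`, there
are `a` further rough polynomials with an odd and `b` with an even number of factors in the ball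
`{f + u : deg u ≤ D}`, and all the rough polynomials in the ball are squarefree. -/
def Marked {K : Type} [Field K] (n m D : ℕ) (S : Finset K[X]) (σ : K[X] → ℤ) (a b : ℕ) :
    Set K[X] :=
  {f | f.Monic ∧ f.natDegree = n ∧ (∀ s ∈ S, Rough m (f + s) ∧ moebius (f + s) = σ s) ∧
    further m D S (-1) f = a ∧ further m D S 1 f = b ∧
      ∀ u : K[X], u.natDegree ≤ D → Rough m (f + u) → Squarefree (f + u)}

/-- The monic `f` of degree `n` such that the rough polynomials in the ball
`{f + u : deg u ≤ D}` are exactly the `f + s`, `s ∈ S`, and `μ (f + s) = σ s` for these. -/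
def Exact {K : Type} [Field K] (n m D : ℕ) (S : Finset K[X]) (σ : K[X] → ℤ) : Set K[X] :=
  {f | f.Monic ∧ f.natDegree = n ∧ (∀ u : K[X], u.natDegree ≤ D → (Rough m (f + u) ↔ u ∈ S)) ∧
    ∀ s ∈ S, moebius (f + s) = σ s}

/-- `F` is squarefree with at most `r` irreducible factors, each of degree at least `n / (r + 1)`. -/
def IsAlmostPrime {K : Type} [Field K] (r n : ℕ) (F : K[X]) : Prop :=
  Squarefree F ∧ Multiset.card (UniqueFactorizationMonoid.factors F) ≤ r ∧
    ∀ P : K[X], Irreducible P → P ∣ F → n ≤ (r + 1) * P.natDegree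

/-- Apart from the `f + h`, `h ∈ H`, every `f + g` with `deg g ≤ d` has an irreducible factor of
degree at most `R`. -/
def Consecutive {K : Type} [Field K] (H : Finset K[X]) (d R : ℕ) (f : K[X]) : Prop :=
  ∀ g : K[X], g.natDegree ≤ d → g ∉ H → ∃ P : K[X], Irreducible P ∧ P.natDegree ≤ R ∧ P ∣ f + g

/-- The monic `f` of degree `n` with `Consecutive H d R f` such that `f + h₀` is irreducible and no
other `f + h`, `h ∈ H`, has an irreducible factor of degree at most `m`. -/
def SiftedPrime {K : Type} [Field K] (H : Finset K[X]) (h₀ : K[X]) (d R n m : ℕ) : Set K[X] :=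
  {f | f.Monic ∧ f.natDegree = n ∧ Consecutive H d R f ∧ Irreducible (f + h₀) ∧
    ∀ h ∈ H, h ≠ h₀ → Rough m (f + h)}

open Pool.Agent.H694.Typ (Mn mem_Mn PU mem_PU)

theorem V_eq {K : Type} [Field K] [Fintype K] (S : Finset K[X]) (m : ℕ) :
    V S m = Pool.Agent.H526.GQ.vf S m := by
  unfold V Pool.Agent.H526.GQ.vf
  have h : {P : K[X] | P.Monic ∧ Irreducible P ∧ P.natDegree ≤ m} = ↑(PU K m) := by
    ext P
    rw [Finset.mem_coe, mem_PU]
    rfl
  rw [h, finprod_mem_coe_finset]
  rfl

theorem V_zero {K : Type} [Field K] [Fintype K] (m : ℕ) :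
    V ({0} : Finset K[X]) m = Pool.Agent.H526.GQ.Vm K m := by
  rw [V_eq]
  unfold Pool.Agent.H526.GQ.vf Pool.Agent.H526.GQ.Vm
  refine Finset.prod_congr rfl fun P _ => ?_
  unfold Pool.Agent.H526.GQ.lf Pool.Agent.H526.GQ.nu
  rw [Finset.image_singleton, Finset.card_singleton, Nat.cast_one]

theorem card_eq {K : Type} [Field K] [Fintype K] (n m D : ℕ) (S : Finset K[X]) (σ : K[X] → ℤ) :
    ((Exact n m D S σ).ncard : ℝ) = ((Pool.Agent.H526.GQ.Ex n m D S σ).card : ℝ) := by
  rw [← Set.ncard_coe_finset]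
  congr 2
  ext f
  unfold Exact Pool.Agent.H526.GQ.Ex
  rw [Finset.mem_coe, Finset.mem_filter, mem_Mn, Set.mem_ofPred_eq]
  constructor
  · rintro ⟨h1, h2, h3, h4⟩
    exact ⟨⟨h1, h2⟩, fun u hu => h3 u (Pool.Agent.H526.GQ.mem_Bl.1 hu), h4⟩
  · rintro ⟨⟨h1, h2⟩, h3, h4⟩
    exact ⟨h1, h2, fun u hu => h3 u (Pool.Agent.H526.GQ.mem_Bl.2 hu), h4⟩

theorem further_eq {K : Type} [Field K] [Fintype K] (m D : ℕ) (S : Finset K[X]) (τ : ℤ)
    (f : K[X]) : further m D S τ f = Pool.Agent.H526.GQ.Nt m D S τ f := by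
  unfold further Pool.Agent.H526.GQ.Nt
  rw [← Set.ncard_coe_finset]
  congr 1
  ext u
  rw [Finset.mem_coe, Finset.mem_filter, Finset.mem_sdiff, Pool.Agent.H526.GQ.mem_Bl,
    Set.mem_ofPred_eq, and_assoc]
  rfl

theorem marked_eq {K : Type} [Field K] [Fintype K] (n m D : ℕ) (S : Finset K[X]) (σ : K[X] → ℤ)
    (a b : ℕ) : ((Marked n m D S σ a b).ncard : ℝ) =
      (((Mn K n).filter (fun f => (∀ s ∈ S, Pool.Agent.H526.GQ.Sft m (f + s) ∧
        Pool.Agent.H526.GQ.mob (f + s) = σ s) ∧
          Pool.Agent.H526.GQ.Nt m D S (-1) f = a ∧ Pool.Agent.H526.GQ.Nt m D S 1 f = b ∧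
            ∀ u ∈ Pool.Agent.H526.GQ.Bl K D, Pool.Agent.H526.GQ.Sft m (f + u) →
              Squarefree (f + u))).card : ℝ) := by
  rw [← Set.ncard_coe_finset]
  congr 2
  ext f
  unfold Marked
  rw [Finset.mem_coe, Finset.mem_filter, mem_Mn, Set.mem_ofPred_eq, further_eq, further_eq]
  constructor
  · rintro ⟨h1, h2, h3, h4, h5, h6⟩
    exact ⟨⟨h1, h2⟩, h3, h4, h5, fun u hu => h6 u (Pool.Agent.H526.GQ.mem_Bl.1 hu)⟩
  · rintro ⟨⟨h1, h2⟩, h3, h4, h5, h6⟩
    exact ⟨h1, h2, h3, h4, h5, fun u hu => h6 u (Pool.Agent.H526.GQ.mem_Bl.2 hu)⟩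

/-- **Patterns of consecutive almost primes with parities over `F_q[X]`, `q` even.** -/
theorem result (K : Type) [Field K] [Fintype K] (hK : Even (Fintype.card K)) :
    -- (1) the marked Poisson law, rooted at any pattern
    (∀ (k a b : ℕ) (A ε : ℝ), 0 < A → 0 < ε → ∃ κ : ℝ, 0 < κ ∧ ∃ M : ℕ, ∀ n m D : ℕ, M ≤ m →
      (m : ℝ) ≤ κ * n → (Fintype.card K : ℝ) ^ (D + 1) ≤ A * m →
      ∀ S : Finset K[X], S.card = k → S.Nonempty → (∀ s ∈ S, s.natDegree ≤ D) →
      ∀ σ : K[X] → ℤ, (∀ s, σ s = 1 ∨ σ s = -1) →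
        |((Marked n m D S σ a b).ncard : ℝ) -
          Real.exp (-((Fintype.card K : ℝ) ^ (D + 1) * V ({0} : Finset K[X]) m)) *
            ((Fintype.card K : ℝ) ^ (D + 1) * V ({0} : Finset K[X]) m / 2) ^ (a + b) /
              ((Nat.factorial a : ℝ) * (Nat.factorial b : ℝ)) *
            (V S m * (Fintype.card K : ℝ) ^ n) / 2 ^ k| ≤
              ε * (V S m * (Fintype.card K : ℝ) ^ n)) ∧
    -- (2) all admissible patterns are realised exactly, with all parities
    (∀ (k : ℕ) (A : ℝ), 0 < A → ∃ κ c : ℝ, 0 < κ ∧ 0 < c ∧ ∃ M : ℕ, ∀ n m D : ℕ, M ≤ m →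
      (m : ℝ) ≤ κ * n → (Fintype.card K : ℝ) ^ (D + 1) ≤ A * m →
      ∀ S : Finset K[X], S.card = k → (∀ s ∈ S, s.natDegree ≤ D) → Admissible S →
      ∀ σ : K[X] → ℤ, (∀ s, σ s = 1 ∨ σ s = -1) →
        c * (Fintype.card K : ℝ) ^ n / (m : ℝ) ^ k ≤ (Exact n m D S σ).ncard) ∧
    ∀ (H : Finset K[X]) (d : ℕ), (∀ h ∈ H, h.natDegree ≤ d) →
      -- (3) patterns with a genuine prime
      (Admissible H →
        ∃ (r R : ℕ) (c : ℝ), 0 < c ∧ ∃ N : ℕ, ∀ n : ℕ, N ≤ n →
          ∀ h₀ ∈ H, ∀ h₁ ∈ H, h₁ ≠ h₀ → ∀ σ : ℤ, (σ = 1 ∨ σ = -1) →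
            c * (Fintype.card K : ℝ) ^ n / (n : ℝ) ^ H.card ≤
              ({f : K[X] | f.Monic ∧ f.natDegree = n ∧ Consecutive H d R f ∧
                Irreducible (f + h₀) ∧ (∀ h ∈ H, h ≠ h₀ → IsAlmostPrime r n (f + h)) ∧
                  moebius (f + h₁) = σ}.ncard : ℝ)) ∧
      -- (4) the Möbius function next to a prime
      (∀ (R : ℕ) (ε : ℝ), 0 < ε →
        ∃ κ : ℝ, 0 < κ ∧ ∃ M N : ℕ, ∀ n m : ℕ, N ≤ n → M ≤ m → (m : ℝ) ≤ κ * n →
          ∀ h₀ ∈ H, ∀ h₁ ∈ H, h₁ ≠ h₀ →
            |∑ᶠ f ∈ SiftedPrime H h₀ d R n m, (moebius (f + h₁) : ℝ)| ≤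
              ε * (SiftedPrime H h₀ d R n m).ncard) := by
  classical
  have := Pool.Agent.H985.Cor.charTwo_of_even hK
  refine ⟨?_, ?_, fun H d hd => ⟨fun hadm => ?_, fun R ε hε => ?_⟩⟩
  · intro k a b A ε hA hε
    obtain ⟨κ, hκ, M, h⟩ := Pool.Agent.H526.GQ.Mark.s_mark K k a b A ε hA hε
    refine ⟨min κ 1, lt_min hκ one_pos, M, fun n m D hm hmκ hD S hS _ hdeg σ hσ => ?_⟩
    have hmn : m ≤ n := by
      have : (m : ℝ) ≤ 1 * n := hmκ.trans (mul_le_mul_of_nonneg_right (min_le_right _ _) (by positivity))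
      rw [one_mul] at this
      exact_mod_cast this
    have h1 := h n m (hm.trans hmn) hm
      (hmκ.trans (mul_le_mul_of_nonneg_right (min_le_left _ _) (by positivity))) D hD S
      (fun s hs => Pool.Agent.H526.GQ.mem_Bl.2 (hdeg s hs)) hS σ hσ
    rw [marked_eq, V_zero, V_eq]
    exact h1
  · intro k A hA
    obtain ⟨κ, c, hκ, hc, M, h⟩ := Pool.Agent.H526.GQ.Fin.low Pool.Agent.H526.GQ.All.s_all
      Pool.Agent.H526.GQ.All.s_mer K k A hA
    refine ⟨κ, c, hκ, hc, M, fun n m D hm hmκ hD S hS hdeg had σ hσ => ?_⟩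
    rw [card_eq]
    exact h n m D hm hmκ hD S hS hdeg had σ hσ
  · obtain ⟨r, R, c, hc, N, h⟩ := Pool.Agent.H530.Consec.part_b H d hd hadm
    refine ⟨r, R, c, hc, N, fun n hn h₀ hh₀ h₁ hh₁ hne σ hσ =>
      (h n hn h₀ hh₀ h₁ hh₁ hne σ hσ).trans (le_of_eq ?_)⟩
    norm_cast
    rw [← Set.ncard_coe_finset]
    congr 1
    ext f
    rw [Finset.mem_coe, Finset.mem_filter, Pool.Agent.H694.Typ.mem_Mn]
    constructor
    · rintro ⟨⟨h1, h2⟩, h3, h4, h5, h6⟩
      exact ⟨h1, h2, h6, h3, h4, h5⟩
    · rintro ⟨h1, h2, h6, h3, h4, h5⟩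
      exact ⟨⟨h1, h2⟩, h3, h4, h5, h6⟩
  · obtain ⟨κ, hκ, M, N, h⟩ := Pool.Agent.H530.Consec.part_d H d hd R ε hε
    refine ⟨κ, hκ, M, N, fun n m hn hm hmκ h₀ hh₀ h₁ hh₁ hne => ?_⟩
    have h1 := h n m hn hm hmκ h₀ hh₀ h₁ hh₁ hne
    have hS : SiftedPrime H h₀ d R n m = ↑((Pool.Agent.H694.Typ.Mn K n).filter (fun f =>
        Pool.Agent.H530.Consec.Gap H d R f ∧ Pool.Agent.H530.Consec.PrmAll H h₀ m f)) := by
      ext f
      rw [Finset.mem_coe, Finset.mem_filter, Pool.Agent.H694.Typ.mem_Mn, and_assoc]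
      rfl
    rw [hS, Set.ncard_coe_finset, finsum_mem_coe_finset]
    exact h1

end Pool.Agent.Results.MP_3ec731_nt.PoissonPatternsEvenChar
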