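import Mathlib
import Pool.Agent.H522.Super

/-! # Supersaturation for patterns of consecutive primes

Inside every set `V` of at least `exp (4 m + 0.58)` integers which misses a residue class modulo every small prime,
a proportion of at least `(10 ^ 6 m) ^ (- m)` of the `m`-element subsets is realised by consecutive primes. The
existence of one such subset (Maynard, Tao) and averaging only give a proportion `exp (- (4 + o(1)) m ^ 2)`.

Method: in the Maynard–Tao measure on the integers `n`, the probability that the numbers `n + u`, `u ∈ U`, are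
all prime is at most `(250 |U| m / |V|) ^ |U|`, for every nonempty `U ⊆ V` (a sieve bound, see
`Pool.Agent.H522.master`), while with probability at least `1 / (300000 m ^ 2)` at least `m` of the numbers
`n + v`, `v ∈ V`, are prime. -/

set_option autoImplicit false

open Filter

namespace Pool.Agent.Results.MP_3ec731_nt.Supersaturation

/-- `n` realises `H` as consecutive primes: the numbers `n + h`, `h ∈ H`, are primes, and every prime between two of
them is one of them -/
def Realises (n : ℕ) (H : Finset ℤ) : Prop :=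
  (∀ h ∈ H, ∃ p : ℕ, p.Prime ∧ (p : ℤ) = n + h) ∧
    ∀ p : ℕ, p.Prime → (∃ s ∈ H, ∃ t ∈ H, (n : ℤ) + s ≤ p ∧ (p : ℤ) ≤ n + t) → ∃ h ∈ H, (p : ℤ) = n + h

/-- for every `ε > 0` there are arbitrarily large `x` such that at least `x ^ (1 - ε)` of the integers `0 ≤ n ≤ x`
realise `H` as consecutive primes -/
def OftenRealised (H : Finset ℤ) : Prop := ∀ ε : ℝ, 0 < ε → ∃ᶠ x : ℝ in atTop,
  x ^ (1 - ε) ≤ (Set.ncard {n : ℕ | (n : ℝ) ≤ x ∧ Realises n H} : ℝ)

theorem result (m : ℕ) (hm : 2 ≤ m) (V : Finset ℤ) (hV : 4 * (m : ℝ) + 29 / 50 ≤ Real.log V.card)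
    (hadm : ∀ p : ℕ, p.Prime → (p : ℝ) ≤ Real.exp (4 * (m : ℝ) + 29 / 50) + 1 →
      ∃ r : ℤ, ∀ v ∈ V, ¬ v ≡ r [ZMOD p]) :
    (V.card.choose m : ℝ) ≤
      (1000000 * (m : ℝ)) ^ m * (Set.ncard {H : Finset ℤ | H ⊆ V ∧ H.card = m ∧ OftenRealised H} : ℝ) := by
  classical
  have hadm' : ∀ p : ℕ, p.Prime → (p : ℝ) ≤ Real.exp (4 * (m : ℝ) + 29 / 50) + 1 →
      ∃ r : ℤ, ∀ s ∈ V, ¬ (p : ℤ) ∣ r + s := by
    intro p hp hpl
    obtain ⟨r, hr⟩ := hadm p hp hpl
    refine ⟨-r, fun s hs hd => hr s hs ?_⟩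
    rw [Int.modEq_iff_dvd]
    have : r - s = -(-r + s) := by ring
    rw [this]
    exact (dvd_neg).2 hd
  have h1 := Pool.Agent.H522.super m hm V hV hadm'
  have h2 : {H : Finset ℤ | H ⊆ V ∧ H.card = m ∧ OftenRealised H} =
      (((V.powersetCard m).filter Pool.Agent.H522.Realised : Finset (Finset ℤ)) : Set (Finset ℤ)) := by
    ext H
    rw [Finset.coe_filter]
    simp only [Finset.mem_powersetCard]
    exact (and_assoc (a := H ⊆ V) (b := H.card = m)).symm
  rw [h2, Set.ncard_coe_finset]
  exact Pool.Agent.H522.super_prop m hm V hV _ h1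

end Pool.Agent.Results.MP_3ec731_nt.Supersaturation
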